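import Mathlib

set_option autoImplicit false

/-! Strong measure zero and the Borel conjecture. -/

namespace Pool.Agent.MP_bc74b8_gt

/-- `X` has strong measure zero: for all positive reals `ε 0, ε 1, …` the set `X` is covered by
open intervals with centers `c 0, c 1, …` and radii `ε 0, ε 1, …`. -/
def StrongMeasureZero (X : Set ℝ) : Prop :=
  ∀ ε : ℕ → ℝ, (∀ n, 0 < ε n) → ∃ c : ℕ → ℝ, ∀ x ∈ X, ∃ n, |x - c n| < ε n

/-- The Borel conjecture: every set of reals of strong measure zero is countable. -/
def BorelConjecture : Prop := ∀ X : Set ℝ, StrongMeasureZero X → X.Countable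

end Pool.Agent.MP_bc74b8_gt
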