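import Mathlib
import Pool.Agent.Lib.MP_bc74b8_gt.SMZ.Defs

set_option autoImplicit false

/-! An outer measure which detects strong measure zero. -/

namespace Pool.Agent.MP_bc74b8_gt

open Set MeasureTheory
open scoped ENNReal

/-- the weight of a set: `2^{-m}` if it fits into a ball of radius `ε m` -/
noncomputable def wt (ε : ℕ → ℝ) (s : Set ℝ) : ℝ≥0∞ :=
  ⨅ (m : ℕ) (_ : ∃ c, s ⊆ Metric.ball c (ε m)), (2⁻¹ : ℝ≥0∞) ^ m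

lemma eq_zero_of_le_pow {x : ℝ≥0∞} (h : ∀ N : ℕ, ∃ n ≥ N, x ≤ (2⁻¹ : ℝ≥0∞) ^ n) : x = 0 := by
  by_contra hx
  have h1 : Filter.Tendsto (fun n : ℕ => (2⁻¹ : ℝ≥0∞) ^ n) Filter.atTop (nhds 0) :=
    ENNReal.tendsto_pow_atTop_nhds_zero_of_lt_one (by simp)
  have h2 := (h1.eventually_lt_const (pos_iff_ne_zero.2 hx))
  obtain ⟨N, hN⟩ := Filter.eventually_atTop.1 h2
  obtain ⟨n, hn, hxn⟩ := h N
  exact absurd (hN n hn) (not_lt.2 hxn)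

lemma wt_le {ε : ℕ → ℝ} {s : Set ℝ} {c : ℝ} {m : ℕ} (h : s ⊆ Metric.ball c (ε m)) :
    wt ε s ≤ (2⁻¹ : ℝ≥0∞) ^ m :=
  iInf₂_le m ⟨c, h⟩

lemma wt_empty (ε : ℕ → ℝ) : wt ε ∅ = 0 :=
  eq_zero_of_le_pow fun N => ⟨N, le_rfl, wt_le (c := 0) (empty_subset _)⟩

/-- the outer measure generated by the weight -/
noncomputable def mu (ε : ℕ → ℝ) : OuterMeasure ℝ := OuterMeasure.ofFunction (wt ε) (wt_empty ε)

lemma mu_le {ε : ℕ → ℝ} {s : Set ℝ} {c : ℝ} {m : ℕ} (h : s ⊆ Metric.ball c (ε m)) :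
    mu ε s ≤ (2⁻¹ : ℝ≥0∞) ^ m :=
  (OuterMeasure.ofFunction_le s).trans (wt_le h)

lemma exists_cover {ε : ℕ → ℝ} {X : Set ℝ} (h : mu ε X = 0) :
    ∃ (c : ℕ → ℝ) (m : ℕ → ℕ), X ⊆ ⋃ i, Metric.ball (c i) (ε (m i)) ∧
      ∑' i, (2⁻¹ : ℝ≥0∞) ^ (m i) ≤ 1 := by
  have h1 : mu ε X < 2⁻¹ := by rw [h]; simp
  rw [mu, OuterMeasure.ofFunction_apply, iInf_lt_iff] at h1
  obtain ⟨t, h1⟩ := h1
  rw [iInf_lt_iff] at h1
  obtain ⟨htX, ht⟩ := h1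
  obtain ⟨δ, hδ, hδs⟩ := ENNReal.exists_pos_sum_of_countable' (ε := (2⁻¹ : ℝ≥0∞))
    (by simp) ℕ
  have h2 : ∀ i, ∃ (m : ℕ) (c : ℝ), t i ⊆ Metric.ball c (ε m) ∧
      (2⁻¹ : ℝ≥0∞) ^ m ≤ wt ε (t i) + δ i := by
    intro i
    have hfin : wt ε (t i) ≠ ⊤ := by
      refine ne_top_of_le_ne_top (ne_top_of_lt ht) (ENNReal.le_tsum i)
    have h3 : wt ε (t i) < wt ε (t i) + δ i := ENNReal.lt_add_right hfin (hδ i).ne'
    conv_lhs at h3 => rw [wt]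
    rw [iInf_lt_iff] at h3
    obtain ⟨m, h3⟩ := h3
    rw [iInf_lt_iff] at h3
    obtain ⟨⟨c, hc⟩, h3⟩ := h3
    exact ⟨m, c, hc, h3.le⟩
  choose m c hc hm using h2
  refine ⟨c, m, htX.trans (iUnion_mono hc), ?_⟩
  calc ∑' i, (2⁻¹ : ℝ≥0∞) ^ (m i) ≤ ∑' i, (wt ε (t i) + δ i) := ENNReal.tsum_le_tsum hm
    _ = ∑' i, wt ε (t i) + ∑' i, δ i := ENNReal.tsum_add
    _ ≤ 2⁻¹ + 2⁻¹ := add_le_add ht.le hδs.le
    _ = 1 := ENNReal.inv_two_add_inv_two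

lemma exists_enum (s : Finset ℝ) : ∃ g : ℕ → ℝ, ∀ a ∈ s, ∃ r < s.card, g r = a := by
  classical
  refine ⟨fun r => if h : r < s.card then (s.equivFin.symm ⟨r, h⟩ : ℝ) else 0, fun a ha => ?_⟩
  refine ⟨s.equivFin ⟨a, ha⟩, (s.equivFin ⟨a, ha⟩).2, ?_⟩
  simp

lemma smz_of_mu {X : Set ℝ} (h : ∀ ε : ℕ → ℝ, (∀ n, 0 < ε n) → mu ε X = 0) :
    StrongMeasureZero X := by
  classical
  intro ε' hε'
  have hne : ∀ j : ℕ, (Finset.range (2 ^ (j + 1))).Nonempty := fun j =>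
    Finset.nonempty_range_iff.2 (by positivity)
  let ε : ℕ → ℝ := fun j => (Finset.range (2 ^ (j + 1))).inf' (hne j) ε'
  have hε : ∀ n, 0 < ε n := by
    intro n
    obtain ⟨i, -, hi⟩ := Finset.exists_mem_eq_inf' (hne n) ε'
    change 0 < (Finset.range (2 ^ (n + 1))).inf' (hne n) ε'
    rw [hi]
    exact hε' i
  have hle : ∀ j i, i < 2 ^ (j + 1) → ε j ≤ ε' i := fun j i hi =>
    Finset.inf'_le _ (Finset.mem_range.2 hi)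
  obtain ⟨c, m, hX, hs⟩ := exists_cover (h ε hε)
  have key : ∀ j, ∃ g : ℕ → ℝ, ∀ i, m i = j → ∃ r < 2 ^ j, g r = c i := by
    intro j
    obtain ⟨hf, hcard⟩ := ENNReal.finset_card_const_le_le_of_tsum_le (c := 1) (by simp) hs
      (ε := (2⁻¹ : ℝ≥0∞) ^ j) (by simp)
    have hcard' : hf.toFinset.card ≤ 2 ^ j := by
      have h1 : (1 : ℝ≥0∞) / (2⁻¹ : ℝ≥0∞) ^ j = ((2 ^ j : ℕ) : ℝ≥0∞) := by
        rw [one_div, ← ENNReal.inv_pow, inv_inv]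
        push_cast
        rfl
      rw [h1] at hcard
      exact_mod_cast hcard
    obtain ⟨g, hg⟩ := exists_enum (hf.toFinset.image c)
    refine ⟨g, fun i hi => ?_⟩
    obtain ⟨r, hr, hgr⟩ := hg (c i) (Finset.mem_image_of_mem c (by simp [hi]))
    exact ⟨r, hr.trans_le (Finset.card_image_le.trans hcard'), hgr⟩
  choose g hg using key
  refine ⟨fun k => g (Nat.log 2 k) (k - 2 ^ Nat.log 2 k), fun x hx => ?_⟩
  obtain ⟨i, hi⟩ := mem_iUnion.1 (hX hx)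
  obtain ⟨r, hr, hgr⟩ := hg (m i) i rfl
  refine ⟨2 ^ m i + r, ?_⟩
  have hlog : Nat.log 2 (2 ^ m i + r) = m i := by
    refine Nat.log_eq_of_pow_le_of_lt_pow (by omega) ?_
    rw [pow_succ]
    omega
  simp only [hlog, Nat.add_sub_cancel_left, hgr]
  rw [Metric.mem_ball, Real.dist_eq] at hi
  refine hi.trans_le (hle _ _ ?_)
  rw [pow_succ]
  omega

end Pool.Agent.MP_bc74b8_gt
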