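import Mathlib
import Pool.Agent.Lib.MP_bc74b8_gt.SMZ.Outer

set_option autoImplicit false

/-! The rows of cells. -/

namespace Pool.Agent.MP_bc74b8_gt

open Set MeasureTheory
open scoped ENNReal

/-- left end of the coarse interval number `j` of row `n` -/
noncomputable def lft (n : ℕ) (j : ℕ) : ℝ := (j : ℝ) / (n + 1) - n

/-- data: for every row `n`, class `j`, level `m` a finite set of centers of balls of radius `ε m`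
which cover the coarse interval number `j` of row `n` -/
lemma exists_centers (ε : ℕ → ℝ) (hε : ∀ n, 0 < ε n) :
    ∃ T : ℕ → ℕ → ℕ → Finset ℝ, ∀ n j m, ∀ x ∈ Icc (lft n j) (lft n (j + 1)),
      ∃ c ∈ T n j m, x ∈ Metric.ball c (ε m) := by
  classical
  have h : ∀ n j m, ∃ T : Finset ℝ, ∀ x ∈ Icc (lft n j) (lft n (j + 1)),
      ∃ c ∈ T, x ∈ Metric.ball c (ε m) := by
    intro n j m
    obtain ⟨t, -, ht, hc⟩ := (isCompact_Icc (a := lft n j) (b := lft n (j + 1))).finite_cover_balls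
      (hε m)
    refine ⟨ht.toFinset, fun x hx => ?_⟩
    obtain ⟨c, hc1, hc2⟩ := mem_iUnion₂.1 (hc hx)
    exact ⟨c, ht.mem_toFinset.2 hc1, hc2⟩
  choose T hT using h
  exact ⟨T, hT⟩

/-- the levels of the classes of the rows -/
def lev (T : ℕ → ℕ → ℕ → Finset ℝ) (n : ℕ) : ℕ → ℕ
  | 0 => 2 * n + 1
  | j + 1 => lev T n j + (n + j + 1) + (n + 1) * (T n j (lev T n j)).card

lemma lev_mono (T : ℕ → ℕ → ℕ → Finset ℝ) (n : ℕ) : Monotone (lev T n) :=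
  monotone_nat_of_le_succ fun j => by
    rw [lev]
    omega

lemma pow_le_of_le {a b : ℕ} (h : a ≤ b) : (2⁻¹ : ℝ≥0∞) ^ b ≤ (2⁻¹ : ℝ≥0∞) ^ a :=
  pow_le_pow_right_of_le_one' (by simp) h

lemma mul_pow_le (k a : ℕ) : (k : ℝ≥0∞) * (2⁻¹ : ℝ≥0∞) ^ (a + k) ≤ (2⁻¹ : ℝ≥0∞) ^ a := by
  have h1 : (k : ℝ≥0∞) ≤ 2 ^ k := by
    have : k ≤ 2 ^ k := Nat.lt_two_pow_self.le
    exact_mod_cast this
  have h2 : (2 : ℝ≥0∞) ^ k * (2⁻¹ : ℝ≥0∞) ^ k = 1 := by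
    rw [← mul_pow, ENNReal.mul_inv_cancel (by simp) (by simp), one_pow]
  calc (k : ℝ≥0∞) * (2⁻¹ : ℝ≥0∞) ^ (a + k) = (k * (2⁻¹ : ℝ≥0∞) ^ k) * (2⁻¹ : ℝ≥0∞) ^ a := by
        rw [pow_add]; ring
    _ ≤ (2 ^ k * (2⁻¹ : ℝ≥0∞) ^ k) * (2⁻¹ : ℝ≥0∞) ^ a := by gcongr
    _ = (2⁻¹ : ℝ≥0∞) ^ a := by rw [h2, one_mul]

lemma lev_zero (T : ℕ → ℕ → ℕ → Finset ℝ) (n j : ℕ) :
    ((n + 1 : ℕ) : ℝ≥0∞) * (2⁻¹ : ℝ≥0∞) ^ (lev T n j) ≤ (2⁻¹ : ℝ≥0∞) ^ n := by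
  refine le_trans ?_ (mul_pow_le (n + 1) n)
  gcongr 1
  refine pow_le_of_le ?_
  have := lev_mono T n (Nat.zero_le j)
  rw [lev] at this
  omega

lemma lev_succ (T : ℕ → ℕ → ℕ → Finset ℝ) (n j : ℕ) :
    ((T n j (lev T n j)).card : ℝ≥0∞) * (((n + 1 : ℕ) : ℝ≥0∞) * (2⁻¹ : ℝ≥0∞) ^ (lev T n (j + 1))) ≤
      (2⁻¹ : ℝ≥0∞) ^ (n + 1 + j) := by
  refine le_trans (le_of_eq ?_) (le_trans
    (mul_pow_le ((n + 1) * (T n j (lev T n j)).card) (lev T n j + (n + j + 1))) ?_)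
  · rw [lev]
    push_cast
    ring
  · exact pow_le_of_le (by omega)

/-- the cell of row `n` and class `p.1` with center `p.2` -/
def cell (ε : ℕ → ℝ) (T : ℕ → ℕ → ℕ → Finset ℝ) (n : ℕ) (p : ℕ × ℝ) : Set ℝ :=
  Metric.ball p.2 (ε (lev T n p.1)) ∩
    Ioo (lft n p.1 - 1 / (n + 1)) (lft n (p.1 + 1) + 1 / (n + 1))

lemma isOpen_cell (ε : ℕ → ℝ) (T : ℕ → ℕ → ℕ → Finset ℝ) (n : ℕ) (p : ℕ × ℝ) :
    IsOpen (cell ε T n p) := Metric.isOpen_ball.inter isOpen_Ioo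

lemma mu_cell (ε : ℕ → ℝ) (T : ℕ → ℕ → ℕ → Finset ℝ) (n : ℕ) (p : ℕ × ℝ) :
    mu ε (cell ε T n p) ≤ (2⁻¹ : ℝ≥0∞) ^ (lev T n p.1) := mu_le inter_subset_left

/-- the union of the cells of a finite set -/
def GG (ε : ℕ → ℝ) (T : ℕ → ℕ → ℕ → Finset ℝ) (n : ℕ) (S : Finset (ℕ × ℝ)) : Set ℝ :=
  ⋃ p ∈ S, cell ε T n p

lemma mem_GG {ε : ℕ → ℝ} {T : ℕ → ℕ → ℕ → Finset ℝ} {n : ℕ} {S : Finset (ℕ × ℝ)} {x : ℝ} :
    x ∈ GG ε T n S ↔ ∃ p ∈ S, x ∈ cell ε T n p := by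
  simp [GG]

lemma isOpen_GG (ε : ℕ → ℝ) (T : ℕ → ℕ → ℕ → Finset ℝ) (n : ℕ) (S : Finset (ℕ × ℝ)) :
    IsOpen (GG ε T n S) := isOpen_biUnion fun p _ => isOpen_cell ε T n p

lemma mu_GG (ε : ℕ → ℝ) (T : ℕ → ℕ → ℕ → Finset ℝ) (n j : ℕ) (S : Finset (ℕ × ℝ))
    (hS : S.card ≤ n + 1) (hj : ∀ p ∈ S, j ≤ p.1) :
    mu ε (GG ε T n S) ≤ ((n + 1 : ℕ) : ℝ≥0∞) * (2⁻¹ : ℝ≥0∞) ^ (lev T n j) := by
  calc mu ε (GG ε T n S) ≤ ∑ p ∈ S, mu ε (cell ε T n p) := measure_biUnion_finset_le _ _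
    _ ≤ ∑ p ∈ S, (2⁻¹ : ℝ≥0∞) ^ (lev T n j) := Finset.sum_le_sum fun p hp =>
        (mu_cell ε T n p).trans (pow_le_of_le (lev_mono T n (hj p hp)))
    _ = (S.card : ℝ≥0∞) * (2⁻¹ : ℝ≥0∞) ^ (lev T n j) := by rw [Finset.sum_const, nsmul_eq_mul]
    _ ≤ _ := by gcongr

/-- the cells of row `n` -/
noncomputable def PP (T : ℕ → ℕ → ℕ → Finset ℝ) (n : ℕ) : Finset (ℕ × ℝ) :=
  (Finset.range (2 * n * (n + 1) + 1)).biUnion fun j =>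
    (T n j (lev T n j)).map ⟨fun c => (j, c), fun _ _ h => (Prod.ext_iff.1 h).2⟩

lemma mem_PP {T : ℕ → ℕ → ℕ → Finset ℝ} {n : ℕ} {p : ℕ × ℝ} :
    p ∈ PP T n ↔ p.1 < 2 * n * (n + 1) + 1 ∧ p.2 ∈ T n p.1 (lev T n p.1) := by
  simp only [PP, Finset.mem_biUnion, Finset.mem_range, Finset.mem_map]
  constructor
  · rintro ⟨j, hj, c, hc, rfl⟩
    exact ⟨hj, hc⟩
  · rintro ⟨h1, h2⟩
    exact ⟨p.1, h1, p.2, h2, rfl⟩

lemma exists_cell {ε : ℕ → ℝ} {T : ℕ → ℕ → ℕ → Finset ℝ}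
    (hT : ∀ n j m, ∀ x ∈ Icc (lft n j) (lft n (j + 1)), ∃ c ∈ T n j m, x ∈ Metric.ball c (ε m))
    (n : ℕ) (x : ℝ) (hx : |x| ≤ n) : ∃ p ∈ PP T n, x ∈ cell ε T n p := by
  have hx1 := (abs_le.1 hx).1
  have hx2 := (abs_le.1 hx).2
  have hn : (0 : ℝ) < n + 1 := by positivity
  have h0 : 0 ≤ (x + n) * (n + 1) := mul_nonneg (by linarith) hn.le
  have hj1 : ((⌊(x + n) * (n + 1)⌋₊ : ℕ) : ℝ) ≤ (x + n) * (n + 1) := Nat.floor_le h0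
  have hj2 : (x + n) * (n + 1) < (⌊(x + n) * (n + 1)⌋₊ : ℕ) + 1 := Nat.lt_floor_add_one _
  set j := ⌊(x + n) * (n + 1)⌋₊ with hj
  have hl1 : lft n j ≤ x := by
    rw [lft, sub_le_iff_le_add, div_le_iff₀ hn]
    exact hj1
  have hl2 : x ≤ lft n (j + 1) := by
    rw [lft, le_sub_iff_add_le, le_div_iff₀ hn]
    push_cast
    exact hj2.le
  obtain ⟨c, hc1, hc2⟩ := hT n j (lev T n j) x ⟨hl1, hl2⟩
  refine ⟨(j, c), mem_PP.2 ⟨?_, hc1⟩, hc2, ?_⟩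
  · have : (j : ℝ) < ((2 * n * (n + 1) + 1 : ℕ) : ℝ) := by
      push_cast
      nlinarith
    exact_mod_cast this
  · have : 0 < 1 / ((n : ℝ) + 1) := by positivity
    constructor
    · change lft n j - 1 / (n + 1) < x
      linarith
    · change x < lft n (j + 1) + 1 / (n + 1)
      linarith

lemma lft_mono (n : ℕ) {i j : ℕ} (h : i ≤ j) : lft n i ≤ lft n j := by
  rw [lft, lft]
  have : (i : ℝ) ≤ j := by exact_mod_cast h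
  gcongr

lemma class_lt {ε : ℕ → ℝ} {T : ℕ → ℕ → ℕ → Finset ℝ} {n : ℕ} {x y : ℝ} {p q : ℕ × ℝ}
    (hx : x ∈ cell ε T n p) (hy : y ∈ cell ε T n q) (h : 3 / ((n : ℝ) + 1) ≤ y - x) :
    p.1 < q.1 := by
  by_contra hc
  have h1 := hx.2.1
  have h2 := hy.2.2
  have h3 := lft_mono n (i := q.1 + 1) (j := p.1 + 1) (by omega)
  have h4 : lft n (p.1 + 1) = lft n p.1 + 1 / (n + 1) := by
    rw [lft, lft]
    push_cast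
    ring
  have h5 : 3 / ((n : ℝ) + 1) = 3 * (1 / (n + 1)) := by ring
  linarith

end Pool.Agent.MP_bc74b8_gt
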