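import Mathlib
import Pool.Agent.Lib.MP_bc74b8_gt.SMZ.Rows
import Pool.Agent.Lib.MP_bc74b8_gt.OmegaTau

set_option autoImplicit false

/-! Sets of reals all of whose open omega-covers contain tau-covers have strong measure zero. -/

namespace Pool.Agent.MP_bc74b8_gt

open Set MeasureTheory
open scoped ENNReal

variable {ε : ℕ → ℝ} {T : ℕ → ℕ → ℕ → Finset ℝ}

lemma mu_singleton (hε : ∀ n, 0 < ε n) (x : ℝ) : mu ε {x} = 0 :=
  eq_zero_of_le_pow fun N => ⟨N, le_rfl, mu_le (c := x) (by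
    rintro _ rfl
    exact Metric.mem_ball_self (hε N))⟩

/-- the exceptional sets -/
def WW (ε : ℕ → ℝ) (T : ℕ → ℕ → ℕ → Finset ℝ) (σ : ℕ → ℕ × ℝ → Finset (ℕ × ℝ)) (q : ℕ × ℕ) :
    Set ℝ :=
  ⋃ c ∈ T q.1 q.2 (lev T q.1 q.2),
    GG ε T q.1 ((σ q.1 (q.2, c)).filter (fun r => q.2 < r.1))

lemma mu_WW (ε : ℕ → ℝ) (T : ℕ → ℕ → ℕ → Finset ℝ) (σ : ℕ → ℕ × ℝ → Finset (ℕ × ℝ))
    (hσ : ∀ n p, (σ n p).card ≤ n + 1) (q : ℕ × ℕ) :
    mu ε (WW ε T σ q) ≤ (2⁻¹ : ℝ≥0∞) ^ (q.1 + 1 + q.2) := by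
  classical
  calc mu ε (WW ε T σ q) ≤ ∑ c ∈ T q.1 q.2 (lev T q.1 q.2),
        mu ε (GG ε T q.1 ((σ q.1 (q.2, c)).filter (fun r => q.2 < r.1))) :=
        measure_biUnion_finset_le _ _
    _ ≤ ∑ c ∈ T q.1 q.2 (lev T q.1 q.2),
        ((q.1 + 1 : ℕ) : ℝ≥0∞) * (2⁻¹ : ℝ≥0∞) ^ (lev T q.1 (q.2 + 1)) :=
        Finset.sum_le_sum fun c _ => mu_GG ε T q.1 (q.2 + 1) _
          ((Finset.card_filter_le _ _).trans (hσ _ _))
          (fun p hp => (Finset.mem_filter.1 hp).2)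
    _ = _ := by rw [Finset.sum_const, nsmul_eq_mul]
    _ ≤ _ := lev_succ T q.1 q.2

lemma tsum_WW (ε : ℕ → ℝ) (T : ℕ → ℕ → ℕ → Finset ℝ) (σ : ℕ → ℕ × ℝ → Finset (ℕ × ℝ))
    (hσ : ∀ n p, (σ n p).card ≤ n + 1) : ∑' q, mu ε (WW ε T σ q) ≠ ∞ := by
  refine ne_top_of_le_ne_top ?_ (ENNReal.tsum_le_tsum (mu_WW ε T σ hσ))
  rw [ENNReal.tsum_prod (f := fun a b : ℕ => (2⁻¹ : ℝ≥0∞) ^ (a + 1 + b))]
  have h2 : (1 : ℝ≥0∞) - 2⁻¹ ≠ 0 := by
    rw [ENNReal.one_sub_inv_two]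
    simp
  have h1 : ∀ a : ℕ, ∑' b : ℕ, (2⁻¹ : ℝ≥0∞) ^ (a + 1 + b) =
      (2⁻¹ : ℝ≥0∞) ^ a * (2⁻¹ * (1 - 2⁻¹)⁻¹) := by
    intro a
    simp_rw [pow_add, pow_one]
    rw [ENNReal.tsum_mul_left, ENNReal.tsum_geometric, mul_assoc]
  simp_rw [h1]
  rw [ENNReal.tsum_mul_right, ENNReal.tsum_geometric]
  finiteness

/-- the main step -/
theorem mu_eq_zero {X : Set ℝ} (h : BinOT X) (hε : ∀ n, 0 < ε n) : mu ε X = 0 := by
  classical
  obtain ⟨T, hT⟩ := exists_centers ε hε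
  -- the first case
  by_cases hA : ∀ N, ∃ n ≥ N, ∃ S ⊆ PP T n, S.card ≤ n + 1 ∧ X ⊆ GG ε T n S
  · refine eq_zero_of_le_pow fun N => ?_
    obtain ⟨n, hn, S, -, hS, hX⟩ := hA N
    exact ⟨n, hn, (measure_mono hX).trans ((mu_GG ε T n 0 S hS (by simp)).trans
      (lev_zero T n 0))⟩
  push Not at hA
  obtain ⟨N₀, hA⟩ := hA
  -- the omega-cover
  let U : Set (Set X) := {u | ∃ n ≥ N₀, ∃ S ⊆ PP T n, S.card ≤ n + 1 ∧
    u = Subtype.val ⁻¹' (GG ε T n S)}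
  have hU : IsOmegaCover U := by
    refine ⟨?_, ?_, ?_⟩
    · rintro _ ⟨n, -, S, -, -, rfl⟩
      exact (isOpen_GG ε T n S).preimage continuous_subtype_val
    · rintro ⟨n, hn, S, hS, hS', h1⟩
      refine hA n hn S hS hS' fun x hx => ?_
      have : (⟨x, hx⟩ : X) ∈ (Subtype.val ⁻¹' (GG ε T n S) : Set X) := by
        rw [← h1]
        trivial
      exact this
    · intro F
      obtain ⟨M, hM⟩ : ∃ M : ℕ, ∀ x ∈ F, |(x : ℝ)| ≤ M := by
        obtain ⟨M, hM⟩ := exists_nat_ge (∑ x ∈ F, |(x : ℝ)|)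
        exact ⟨M, fun x hx => (Finset.single_le_sum (f := fun x : X => |(x : ℝ)|)
          (fun _ _ => abs_nonneg _) hx).trans hM⟩
      let n := N₀ + F.card + M
      have h1 : ∀ x : X, ∃ p, x ∈ F → p ∈ PP T n ∧ (x : ℝ) ∈ cell ε T n p := by
        intro x
        by_cases hx : x ∈ F
        · have h2 : |(x : ℝ)| ≤ n := (hM x hx).trans (by
            have : M ≤ n := Nat.le_add_left _ _
            exact_mod_cast this)
          obtain ⟨p, hp⟩ := exists_cell hT n x h2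
          exact ⟨p, fun _ => hp⟩
        · exact ⟨(0, 0), fun h => absurd h hx⟩
      choose p hp using h1
      refine ⟨_, ⟨n, by simp only [n]; omega, F.image p, ?_, ?_, rfl⟩, ?_⟩
      · intro q hq
        obtain ⟨x, hx, rfl⟩ := Finset.mem_image.1 hq
        exact (hp x hx).1
      · exact Finset.card_image_le.trans (by simp only [n]; omega)
      · intro x hx
        exact mem_GG.2 ⟨p x, Finset.mem_image_of_mem p hx, (hp x hx).2⟩
  obtain ⟨B, hBU, hB⟩ := h U hU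
  have h1 : ∀ b : Set X, ∃ (n : ℕ) (S : Finset (ℕ × ℝ)), b ∈ B → n ≥ N₀ ∧ S ⊆ PP T n ∧
      S.card ≤ n + 1 ∧ b = Subtype.val ⁻¹' (GG ε T n S) := by
    intro b
    by_cases hb : b ∈ B
    · obtain ⟨n, hn, S, hS⟩ := hBU hb
      exact ⟨n, S, fun _ => ⟨hn, hS⟩⟩
    · exact ⟨0, ∅, fun h => absurd h hb⟩
  choose row S hRS using h1
  have hmem : ∀ b ∈ B, ∀ x : X, x ∈ b ↔ ∃ p ∈ S b, (x : ℝ) ∈ cell ε T (row b) p := by
    intro b hb x
    conv_lhs => rw [(hRS b hb).2.2.2]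
    exact mem_GG
  -- rows of the tau-cover are finite
  have hfin : ∀ n, {b ∈ B | row b ≤ n}.Finite := by
    intro n
    have h2 : {b ∈ B | row b ≤ n} ⊆ ⋃ m ∈ Finset.range (n + 1),
        (fun s : Finset (ℕ × ℝ) => (Subtype.val ⁻¹' (GG ε T m s) : Set X)) '' (PP T m).powerset := by
      rintro b ⟨hb, hbn⟩
      simp only [mem_iUnion]
      refine ⟨row b, Finset.mem_range.2 (by omega), S b, ?_, (hRS b hb).2.2.2.symm⟩
      exact Finset.mem_coe.2 (Finset.mem_powerset.2 (hRS b hb).2.1)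
    refine Set.Finite.subset ?_ h2
    exact Set.Finite.biUnion (Finset.finite_toSet _) fun m _ => (Finset.finite_toSet _).image _
  have hbig : ∀ (s : Set (Set X)), s ⊆ B → s.Infinite → ∀ n, ∃ b ∈ s, n < row b := by
    intro s hs hsi n
    by_contra hc
    push Not at hc
    exact hsi ((hfin n).subset fun b hb => ⟨hs hb, hc b hb⟩)
  have hbd : ∀ s : Set (Set X), s.Finite → ∃ n, ∀ b ∈ s, row b ≤ n := by
    intro s hs
    obtain ⟨n, hn⟩ := (hs.image row).bddAbove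
    exact ⟨n, fun b hb => hn (mem_image_of_mem row hb)⟩
  -- the chosen members
  have h2 : ∀ (n : ℕ) (p : ℕ × ℝ), ∃ s : Finset (ℕ × ℝ), s.card ≤ n + 1 ∧
      ∀ b ∈ B, row b = n → p ∈ S b → ∃ b' ∈ B, row b' = n ∧ S b' = s ∧ p ∈ s := by
    intro n p
    by_cases hp : ∃ b ∈ B, row b = n ∧ p ∈ S b
    · obtain ⟨b', hb', hrow, hp'⟩ := hp
      exact ⟨S b', hrow ▸ (hRS b' hb').2.2.1, fun _ _ _ _ => ⟨b', hb', hrow, rfl, hp'⟩⟩
    · exact ⟨∅, by simp, fun b hb h3 h4 => absurd ⟨b, hb, h3, h4⟩ hp⟩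
  choose σ hσ1 hσ2 using h2
  -- the exceptional set
  let E : Set ℝ := {x | ¬ {q | x ∈ WW ε T σ q}.Finite}
  have hE : mu ε E = 0 := by
    have := ae_finite_setOfPred_mem (tsum_WW ε T σ hσ1)
    rw [ae_iff] at this
    exact this
  -- good points
  have hgood : ∀ y : X, (y : ℝ) ∉ E → ∀ x : X, (x : ℝ) < y →
      {b ∈ B | y ∈ b ∧ x ∉ b}.Finite := by
    intro y hy x hxy
    refine (hB.2.2.2 y x).resolve_right fun hxf => ?_
    have hyf : {q | (y : ℝ) ∈ WW ε T σ q}.Finite := by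
      by_contra hc
      exact hy hc
    obtain ⟨n1, hn1⟩ := (hyf.image Prod.fst).bddAbove
    obtain ⟨n2, hn2⟩ := hbd _ hxf
    obtain ⟨n3, hn3⟩ := exists_nat_ge (3 / ((y : ℝ) - x))
    obtain ⟨b, ⟨hb, hxb⟩, hrow⟩ := hbig {b ∈ B | x ∈ b} (fun b hb => hb.1) (hB.2.2.1 x)
      (n1 + n2 + n3)
    obtain ⟨p, hpS, hxp⟩ := (hmem b hb x).1 hxb
    obtain ⟨b', hb', hrow', hS', hp'⟩ := hσ2 (row b) p b hb rfl hpS
    have hxb' : x ∈ b' := (hmem b' hb' x).2 ⟨p, hS' ▸ hp', by rw [hrow']; exact hxp⟩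
    have hyb' : y ∈ b' := by
      by_contra hc
      have := hn2 b' ⟨hb', hxb', hc⟩
      omega
    obtain ⟨q, hqS, hyq⟩ := (hmem b' hb' y).1 hyb'
    rw [hrow'] at hyq
    have hpos : (0 : ℝ) < y - x := by linarith
    have hcl : p.1 < q.1 := by
      refine class_lt hxp hyq ?_
      rw [div_le_iff₀ (by positivity)]
      rw [div_le_iff₀ hpos] at hn3
      have h4 : (n3 : ℝ) ≤ (row b : ℝ) + 1 := by
        have : n3 ≤ row b + 1 := by omega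
        exact_mod_cast this
      nlinarith
    have hW : (y : ℝ) ∈ WW ε T σ (row b, p.1) := by
      have hpP := (hRS b hb).2.1 hpS
      refine mem_iUnion₂.2 ⟨p.2, (mem_PP.1 hpP).2, mem_GG.2 ⟨q, ?_, hyq⟩⟩
      refine Finset.mem_filter.2 ⟨?_, hcl⟩
      change q ∈ σ (row b) p
      rw [← hS']
      exact hqS
    have h5 := hn1 (mem_image_of_mem Prod.fst (show (row b, p.1) ∈ _ from hW))
    simp only at h5
    omega
  -- below a good point the set is small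
  have hbelow : ∀ y : X, (y : ℝ) ∉ E → mu ε (X ∩ Iio (y : ℝ)) = 0 := by
    intro y hy
    let K : ℕ → Set ℝ := fun N => {x | ∀ b ∈ B, N ≤ row b → y ∈ b → ∃ hx : x ∈ X, (⟨x, hx⟩ : X) ∈ b}
    have hsub : X ∩ Iio (y : ℝ) ⊆ ⋃ N, K N := by
      rintro x ⟨hx, hxy⟩
      obtain ⟨N, hN⟩ := hbd _ (hgood y hy ⟨x, hx⟩ hxy)
      refine mem_iUnion.2 ⟨N + 1, fun b hb hrow hyb => ⟨hx, ?_⟩⟩
      by_contra hc
      have := hN b ⟨hb, hyb, hc⟩
      omega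
    refine measure_mono_null hsub (measure_iUnion_null fun N => ?_)
    refine eq_zero_of_le_pow fun M => ?_
    obtain ⟨b, ⟨hb, hyb⟩, hrow⟩ := hbig {b ∈ B | y ∈ b} (fun b hb => hb.1) (hB.2.2.1 y) (N + M)
    refine ⟨row b, by omega, ?_⟩
    have hK : K N ⊆ GG ε T (row b) (S b) := by
      intro x hx
      obtain ⟨hxX, hxb⟩ := hx b hb (by omega) hyb
      rw [(hRS b hb).2.2.2] at hxb
      exact hxb
    exact (measure_mono hK).trans ((mu_GG ε T (row b) 0 (S b) (hRS b hb).2.2.1 (by simp)).trans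
      (lev_zero T (row b) 0))
  -- the end
  have hcov : X ⊆ E ∪ ((⋃ r : {r : ℚ // ∃ y ∈ X, y ∉ E ∧ (r : ℝ) ≤ y}, X ∩ Iio ((r : ℚ) : ℝ)) ∪
      {y | y ∈ X ∧ y ∉ E ∧ ∀ z ∈ X, z ∉ E → z ≤ y}) := by
    intro x hx
    by_cases hxE : x ∈ E
    · exact Or.inl hxE
    right
    by_cases hmax : ∀ z ∈ X, z ∉ E → z ≤ x
    · exact Or.inr ⟨hx, hxE, hmax⟩
    left
    push Not at hmax
    obtain ⟨z, hz, hzE, hxz⟩ := hmax
    obtain ⟨r, hr1, hr2⟩ := exists_rat_btwn hxz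
    exact mem_iUnion.2 ⟨⟨r, z, hz, hzE, hr2.le⟩, hx, hr1⟩
  refine measure_mono_null hcov (measure_union_null hE (measure_union_null
    (measure_iUnion_null ?_) ?_))
  · rintro ⟨r, y, hy, hyE, hry⟩
    exact measure_mono_null (t := X ∩ Iio y) (fun x hx => ⟨hx.1, lt_of_lt_of_le hx.2 hry⟩)
      (hbelow ⟨y, hy⟩ hyE)
  · by_cases hne : ∃ y, y ∈ X ∧ y ∉ E ∧ ∀ z ∈ X, z ∉ E → z ≤ y
    · obtain ⟨y, hy, hyE, hymax⟩ := hne
      refine measure_mono_null (t := {y}) ?_ (mu_singleton hε y)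
      rintro z ⟨hz, hzE, hzmax⟩
      exact le_antisymm (hymax z hz hzE) (hzmax y hy hyE)
    · have : {y | y ∈ X ∧ y ∉ E ∧ ∀ z ∈ X, z ∉ E → z ≤ y} = (∅ : Set ℝ) := by
        ext y
        simp only [mem_ofPred_eq, mem_empty_iff_false, iff_false]
        exact fun hy => hne ⟨y, hy⟩
      rw [this]
      exact measure_empty

theorem strongMeasureZero_of_binOT {X : Set ℝ} (h : BinOT X) : StrongMeasureZero X :=
  smz_of_mu fun _ hε => mu_eq_zero h hε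

theorem binOG_of_countable {Y : Type*} [TopologicalSpace Y] [Countable Y] : BinOG Y := by
  classical
  intro U hU
  rcases isEmpty_or_nonempty Y with hY | hY
  · obtain ⟨u, hu, -⟩ := hU.2.2 ∅
    have : u = univ := Subsingleton.elim _ _
    exact absurd (this ▸ hu) hU.2.1
  obtain ⟨f, hf⟩ := exists_surjective_nat Y
  have h1 : ∀ n : ℕ, ∃ u ∈ U, ∀ i < n, f i ∈ u := by
    intro n
    obtain ⟨u, hu, hu'⟩ := hU.2.2 ((Finset.range n).image f)
    exact ⟨u, hu, fun i hi => hu' (Finset.mem_coe.2 (Finset.mem_image_of_mem f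
      (Finset.mem_range.2 hi)))⟩
  choose u hu hfu using h1
  refine ⟨range u, by rintro _ ⟨n, rfl⟩; exact hu n, ?_, ?_, ?_, ?_⟩
  · rintro _ ⟨n, rfl⟩; exact hU.1 _ (hu n)
  · rintro ⟨n, hn⟩; exact hU.2.1 (hn ▸ hu n)
  · intro hfin
    have : Finite (range u) := hfin
    obtain ⟨⟨v, hv⟩, hv'⟩ := Finite.exists_infinite_fiber (fun n : ℕ => (⟨u n, n, rfl⟩ : range u))
    have hvu : v = univ := by
      refine eq_univ_of_forall fun y => ?_
      obtain ⟨i, rfl⟩ := hf y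
      obtain ⟨n, hn, hin⟩ := (Set.infinite_coe_iff.1 hv').exists_gt i
      have h2 : u n = v := congrArg Subtype.val hn
      rw [← h2]
      exact hfu n i hin
    obtain ⟨n, rfl⟩ := hv
    exact hU.2.1 (hvu ▸ hu n)
  · intro y
    obtain ⟨i, rfl⟩ := hf y
    refine ((Finset.range (i + 1)).finite_toSet.image u).subset ?_
    rintro _ ⟨⟨n, rfl⟩, hn⟩
    refine ⟨n, ?_, rfl⟩
    by_contra hc
    exact hn (hfu n i (by simpa using hc))

end Pool.Agent.MP_bc74b8_gt
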