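import Mathlib
import Pool.Agent.Lib.MP_bc74b8_gt.Defs
import Pool.Agent.Lib.MP_bc74b8_gt.Measure
import Pool.Agent.Lib.MP_bc74b8_gt.CH.Main
import Pool.Agent.Lib.MP_bc74b8_gt.SMZ.Defs
import Pool.Agent.Lib.MP_bc74b8_gt.SMZ.Main

set_option autoImplicit false

/-! The preservation of `Split(Omega, Tau)` under finite powers. -/

namespace Pool.Agent.MP_bc74b8_gt

theorem splitOmegaTau_smz (X : Set ℝ) (h : SplitOmegaTau X) : StrongMeasureZero X :=
  strongMeasureZero_of_binOT h.binOT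

theorem splitOmegaTau_preserved_iff :
    (∀ X : Set ℝ, SplitOmegaTau X → ∀ n : ℕ, 1 ≤ n → SplitOmegaTau (Fin n → X)) ↔
      (∀ X : Set ℝ, SplitOmegaTau X ↔ SplitOmegaGamma X) := by
  constructor
  · intro h X
    exact ⟨fun hX => (splitOmegaTau_pi_iff X 2 le_rfl).1 (h X hX 2 (by norm_num)),
      fun hX => hX.splitOmegaTau⟩
  · intro h X hX n hn
    rcases Nat.lt_or_ge n 2 with h1 | h1
    · exact (((SplitOmegaGamma.binOG ((h X).1 hX)).pi n).splitOmegaGamma).splitOmegaTau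
    · exact (splitOmegaTau_pi_iff X n h1).2 ((h X).1 hX)

theorem splitOmegaTau_preserved_of_borel (hBC : BorelConjecture) :
    ∀ X : Set ℝ, SplitOmegaTau X → ∀ n : ℕ, 1 ≤ n → SplitOmegaTau (Fin n → X) := by
  refine splitOmegaTau_preserved_iff.2 fun X => ⟨fun hX => ?_, fun hX => hX.splitOmegaTau⟩
  have : Countable X := (hBC X (splitOmegaTau_smz X hX)).to_subtype
  exact binOG_of_countable.splitOmegaGamma

end Pool.Agent.MP_bc74b8_gt
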